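import Mathlib

/-!
# An exchange lemma for rainbow matchings

`F` is a finite set of cells; every cell has an `a`-value, a `b`-value and an `r`-value (for
instance its column, its symbol and its row). A rainbow matching is a set of cells of `F` with
distinct `a`-values, distinct `b`-values and distinct `r`-values.
-/

set_option autoImplicit false

namespace Pool.Agent.DisjTrans15

open Finset

variable {E α β ρ : Type*} [DecidableEq E] [DecidableEq α] [DecidableEq β] [DecidableEq ρ]

/-- `M ⊆ F` is a rainbow matching: no two cells of `M` have the same `a`-value, the same `b`-value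
or the same `r`-value. -/
structure IsRb (a : E → α) (b : E → β) (r : E → ρ) (F M : Finset E) : Prop where
  sub : M ⊆ F
  ia : ∀ e ∈ M, ∀ f ∈ M, a e = a f → e = f
  ib : ∀ e ∈ M, ∀ f ∈ M, b e = b f → e = f
  ir : ∀ e ∈ M, ∀ f ∈ M, r e = r f → e = f

/-- The rainbow matchings that are reachable from `M₀` by exchanges that keep the set of
`b`-values. -/
inductive Reach (a : E → α) (b : E → β) (r : E → ρ) (F M₀ : Finset E) (x₀ : α) : Finset E → Prop
  | base : Reach a b r F M₀ x₀ M₀
  | step {M : Finset E} {e f : E} : Reach a b r F M₀ x₀ M → e ∈ F → a e ∉ M.image a →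
      a e ∈ insert x₀ (M₀.image a) → r e ∉ M.image r → f ∈ M → b f = b e →
      Reach a b r F M₀ x₀ (insert e (M.erase f))

variable {a : E → α} {b : E → β} {r : E → ρ} {F M₀ M : Finset E} {x₀ : α}

theorem Reach.inv (h0 : IsRb a b r F M₀) (h : Reach a b r F M₀ x₀ M) :
    IsRb a b r F M ∧ M.card = M₀.card ∧ M.image a ⊆ insert x₀ (M₀.image a) ∧
      M.image b = M₀.image b := by
  induction h with
  | base => exact ⟨h0, rfl, Finset.subset_insert _ _, rfl⟩
  | @step M e f _ heF hea hea' her hf hb ih =>
    obtain ⟨ih1, ih2, ih3, ih4⟩ := ih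
    have hne : ∀ g ∈ M, a g ≠ a e := fun g hg h => hea (h ▸ Finset.mem_image_of_mem a hg)
    have hner : ∀ g ∈ M, r g ≠ r e := fun g hg h => her (h ▸ Finset.mem_image_of_mem r hg)
    have heM : e ∉ M := fun h => hne e h rfl
    have hbe : ∀ g ∈ M.erase f, b g ≠ b e := by
      intro g hg h
      rw [Finset.mem_erase] at hg
      exact hg.1 (ih1.ib g hg.2 f hf (h.trans hb.symm))
    refine ⟨⟨?_, ?_, ?_, ?_⟩, ?_, ?_, ?_⟩
    · intro g hg
      rw [Finset.mem_insert] at hg
      rcases hg with rfl | hg
      · exact heF
      · exact ih1.sub (Finset.mem_of_mem_erase hg)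
    · intro g hg g' hg' h
      rw [Finset.mem_insert] at hg hg'
      rcases hg with rfl | hg <;> rcases hg' with rfl | hg'
      · rfl
      · exact absurd h.symm (hne g' (Finset.mem_of_mem_erase hg'))
      · exact absurd h (hne g (Finset.mem_of_mem_erase hg))
      · exact ih1.ia g (Finset.mem_of_mem_erase hg) g' (Finset.mem_of_mem_erase hg') h
    · intro g hg g' hg' h
      rw [Finset.mem_insert] at hg hg'
      rcases hg with rfl | hg <;> rcases hg' with rfl | hg'
      · rfl
      · exact absurd h.symm (hbe g' hg')
      · exact absurd h (hbe g hg)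
      · exact ih1.ib g (Finset.mem_of_mem_erase hg) g' (Finset.mem_of_mem_erase hg') h
    · intro g hg g' hg' h
      rw [Finset.mem_insert] at hg hg'
      rcases hg with rfl | hg <;> rcases hg' with rfl | hg'
      · rfl
      · exact absurd h.symm (hner g' (Finset.mem_of_mem_erase hg'))
      · exact absurd h (hner g (Finset.mem_of_mem_erase hg))
      · exact ih1.ir g (Finset.mem_of_mem_erase hg) g' (Finset.mem_of_mem_erase hg') h
    · rw [Finset.card_insert_of_notMem (fun h => heM (Finset.mem_of_mem_erase h)),
        Finset.card_erase_of_mem hf, ← ih2]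
      have : 0 < M.card := Finset.card_pos.mpr ⟨f, hf⟩
      omega
    · intro x hx
      rw [Finset.mem_image] at hx
      obtain ⟨g, hg, rfl⟩ := hx
      rw [Finset.mem_insert] at hg
      rcases hg with rfl | hg
      · exact hea'
      · exact ih3 (Finset.mem_image_of_mem a (Finset.mem_of_mem_erase hg))
    · rw [← ih4]
      ext y
      simp only [Finset.mem_image, Finset.mem_insert, Finset.mem_erase]
      constructor
      · rintro ⟨g, rfl | ⟨-, hg⟩, rfl⟩
        · exact ⟨f, hf, hb⟩
        · exact ⟨g, hg, rfl⟩
      · rintro ⟨g, hg, rfl⟩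
        by_cases hgf : g = f
        · exact ⟨e, Or.inl rfl, by rw [hgf, hb]⟩
        · exact ⟨g, Or.inr ⟨hgf, hg⟩, rfl⟩

/-- The `a`-values that are missed by some reachable rainbow matching. -/
noncomputable def missed (a : E → α) (b : E → β) (r : E → ρ) (F M₀ : Finset E) (x₀ : α) :
    Finset α := by
  classical
  exact (insert x₀ (M₀.image a)).filter fun x => ∃ M, Reach a b r F M₀ x₀ M ∧ x ∉ M.image a

theorem mem_missed {x : α} : x ∈ missed a b r F M₀ x₀ ↔
    x ∈ insert x₀ (M₀.image a) ∧ ∃ M, Reach a b r F M₀ x₀ M ∧ x ∉ M.image a := by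
  simp only [missed, Finset.mem_filter]

/-- The reachable rainbow matchings agree outside the missed `a`-values. -/
theorem Reach.frozen (h0 : IsRb a b r F M₀) (h : Reach a b r F M₀ x₀ M) :
    ∀ g : E, a g ∉ missed a b r F M₀ x₀ → (g ∈ M ↔ g ∈ M₀) := by
  induction h with
  | base => exact fun g _ => Iff.rfl
  | @step M e f hM heF hea hea' her hf hb ih =>
    intro g hg
    obtain ⟨h1, -, h3, -⟩ := Reach.inv h0 hM
    have hae : a e ∈ missed a b r F M₀ x₀ := mem_missed.mpr ⟨hea', M, hM, hea⟩
    have haf : a f ∈ missed a b r F M₀ x₀ := by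
      refine mem_missed.mpr ⟨h3 (Finset.mem_image_of_mem a hf), _,
        Reach.step hM heF hea hea' her hf hb, ?_⟩
      rw [Finset.mem_image]
      rintro ⟨g', hg', hg''⟩
      rw [Finset.mem_insert, Finset.mem_erase] at hg'
      rcases hg' with rfl | ⟨hg1, hg2⟩
      · exact hea (hg'' ▸ Finset.mem_image_of_mem a hf)
      · exact hg1 (h1.ia g' hg2 f hf hg'')
    have hge : g ≠ e := fun h => hg (h ▸ hae)
    have hgf : g ≠ f := fun h => hg (h ▸ haf)
    rw [← ih g hg, Finset.mem_insert, Finset.mem_erase]
    simp [hge, hgf]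

/-- **Exchange lemma.** Let `M₀` be a rainbow matching that misses the `a`-value `x₀`. If `x₀` and
the `a`-values of `M₀` have at least `d` cells each, the `b`-values have at most `d` cells each,
and `d > |M₀| (|M₀| + 1)`, then there is a rainbow matching with the `a`-values of `M₀` and `x₀`,
and with all the `b`-values of `M₀`. -/
theorem exists_extend (h0 : IsRb a b r F M₀) (har : ∀ e ∈ F, ∀ f ∈ F, a e = a f → r e = r f → e = f)
    (hx₀ : x₀ ∉ M₀.image a) {d : ℕ}
    (ha : ∀ x ∈ insert x₀ (M₀.image a), d ≤ (F.filter fun e => a e = x).card)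
    (hb : ∀ y : β, (F.filter fun e => b e = y).card ≤ d)
    (hd : M₀.card * (M₀.card + 1) < d) :
    ∃ M, IsRb a b r F M ∧ M.image a = insert x₀ (M₀.image a) ∧ M₀.image b ⊆ M.image b := by
  classical
  by_contra hno
  set R := missed a b r F M₀ x₀ with hR
  have hx₀R : x₀ ∈ R := mem_missed.mpr ⟨Finset.mem_insert_self _ _, M₀, Reach.base, hx₀⟩
  have hRsub : R ⊆ insert x₀ (M₀.image a) := fun x hx => (mem_missed.mp hx).1
  -- the `b`-values of the cells of `M₀` with `a`-value in `R`
  set B := (M₀.filter fun e => a e ∈ R).image b with hB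
  have hBcard : B.card + 1 = R.card := by
    rw [hB, Finset.card_image_of_injOn]
    · have h1 : (M₀.filter fun e => a e ∈ R).card = ((M₀.filter fun e => a e ∈ R).image a).card := by
        rw [Finset.card_image_of_injOn]
        intro e he f hf h
        exact h0.ia e (Finset.mem_of_mem_filter e he) f (Finset.mem_of_mem_filter f hf) h
      have h2 : (M₀.filter fun e => a e ∈ R).image a = R.erase x₀ := by
        ext x
        rw [Finset.mem_image, Finset.mem_erase]
        constructor
        · rintro ⟨e, he, rfl⟩
          rw [Finset.mem_filter] at he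
          exact ⟨fun h => hx₀ (h ▸ Finset.mem_image_of_mem a he.1), he.2⟩
        · rintro ⟨hx, hxR⟩
          have h3 := hRsub hxR
          rw [Finset.mem_insert, Finset.mem_image] at h3
          rcases h3 with h3 | ⟨e, he, rfl⟩
          · exact absurd h3 hx
          · exact ⟨e, Finset.mem_filter.mpr ⟨he, hxR⟩, rfl⟩
      rw [h1, h2, Finset.card_erase_of_mem hx₀R]
      have : 0 < R.card := Finset.card_pos.mpr ⟨x₀, hx₀R⟩
      omega
    · intro e he f hf h
      exact h0.ib e (Finset.mem_of_mem_filter e he) f (Finset.mem_of_mem_filter f hf) h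
  -- a cell with a missed `a`-value and an unused row has its `b`-value in `B`
  have hkey : ∀ x ∈ R, ∃ Rw : Finset ρ, Rw.card ≤ M₀.card ∧
      ∀ e ∈ F, a e = x → r e ∉ Rw → b e ∈ B := by
    intro x hx
    obtain ⟨hx1, M, hM, hxM⟩ := mem_missed.mp hx
    obtain ⟨h1, h2, h3, h4⟩ := Reach.inv h0 hM
    refine ⟨M.image r, le_trans Finset.card_image_le h2.le, ?_⟩
    intro e he hex hre
    have hea : a e ∉ M.image a := by rw [hex]; exact hxM
    have hne : ∀ g ∈ M, a g ≠ a e := fun g hg h => hea (h ▸ Finset.mem_image_of_mem a hg)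
    have hner : ∀ g ∈ M, r g ≠ r e := fun g hg h => hre (h ▸ Finset.mem_image_of_mem r hg)
    by_cases hbe : b e ∈ M.image b
    · rw [Finset.mem_image] at hbe
      obtain ⟨f, hf, hbf⟩ := hbe
      -- `f` has a missed `a`-value
      have hfR : a f ∈ R := by
        refine mem_missed.mpr ⟨h3 (Finset.mem_image_of_mem a hf), _,
          Reach.step hM he hea (by rw [hex]; exact hx1) hre hf hbf, ?_⟩
        rw [Finset.mem_image]
        rintro ⟨g', hg', hg''⟩
        rw [Finset.mem_insert, Finset.mem_erase] at hg'
        rcases hg' with rfl | ⟨hg1, hg2⟩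
        · exact hea (hg'' ▸ Finset.mem_image_of_mem a hf)
        · exact hg1 (h1.ia g' hg2 f hf hg'')
      -- its `b`-value is a `b`-value of `M₀`
      have h5 : b f ∈ M₀.image b := by
        rw [← h4]
        exact Finset.mem_image_of_mem b hf
      rw [Finset.mem_image] at h5
      obtain ⟨g, hg, hgf⟩ := h5
      rw [← hbf, ← hgf, hB]
      refine Finset.mem_image_of_mem b (Finset.mem_filter.mpr ⟨hg, ?_⟩)
      by_contra hgR
      have h6 : g ∈ M := (Reach.frozen h0 hM g hgR).mpr hg
      have h7 : g = f := h1.ib g h6 f hf hgf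
      exact hgR (h7 ▸ hfR)
    · exfalso
      apply hno
      have hbne : ∀ g ∈ M, b g ≠ b e := fun g hg h => hbe (h ▸ Finset.mem_image_of_mem b hg)
      refine ⟨insert e M, ⟨?_, ?_, ?_, ?_⟩, ?_, ?_⟩
      · intro g hg
        rw [Finset.mem_insert] at hg
        rcases hg with rfl | hg
        · exact he
        · exact h1.sub hg
      · intro g hg g' hg' h
        rw [Finset.mem_insert] at hg hg'
        rcases hg with rfl | hg <;> rcases hg' with rfl | hg'
        · rfl
        · exact absurd h.symm (hne g' hg')
        · exact absurd h (hne g hg)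
        · exact h1.ia g hg g' hg' h
      · intro g hg g' hg' h
        rw [Finset.mem_insert] at hg hg'
        rcases hg with rfl | hg <;> rcases hg' with rfl | hg'
        · rfl
        · exact absurd h.symm (hbne g' hg')
        · exact absurd h (hbne g hg)
        · exact h1.ib g hg g' hg' h
      · intro g hg g' hg' h
        rw [Finset.mem_insert] at hg hg'
        rcases hg with rfl | hg <;> rcases hg' with rfl | hg'
        · rfl
        · exact absurd h.symm (hner g' hg')
        · exact absurd h (hner g hg)
        · exact h1.ir g hg g' hg' h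
      · -- the `a`-values
        refine Finset.eq_of_subset_of_card_le ?_ ?_
        · rw [Finset.image_insert]
          refine Finset.insert_subset ?_ h3
          rw [hex]
          exact hx1
        · rw [Finset.card_insert_of_notMem hx₀, Finset.image_insert,
            Finset.card_insert_of_notMem hea, Finset.card_image_of_injOn, Finset.card_image_of_injOn,
            h2]
          · intro e he f hf h
            exact h1.ia e he f hf h
          · intro e he f hf h
            exact h0.ia e he f hf h
      · rw [← h4]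
        exact Finset.image_subset_image (Finset.subset_insert _ _)
  -- counting
  have hcount : ∀ x ∈ R, d ≤ (F.filter fun e => a e = x ∧ b e ∈ B).card + M₀.card := by
    intro x hx
    obtain ⟨Rw, hRw, hRw'⟩ := hkey x hx
    have h1 : (F.filter fun e => a e = x) ⊆ (F.filter fun e => a e = x ∧ b e ∈ B) ∪
        (F.filter fun e => a e = x ∧ r e ∈ Rw) := by
      intro e he
      rw [Finset.mem_filter] at he
      rw [Finset.mem_union, Finset.mem_filter, Finset.mem_filter]
      by_cases h : r e ∈ Rw
      · exact Or.inr ⟨he.1, he.2, h⟩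
      · exact Or.inl ⟨he.1, he.2, hRw' e he.1 he.2 h⟩
    have h2 : (F.filter fun e => a e = x ∧ r e ∈ Rw).card ≤ Rw.card := by
      refine Finset.card_le_card_of_injOn r ?_ ?_
      · intro e he
        exact (Finset.mem_filter.mp he).2.2
      · intro e he f hf h
        have he' := Finset.mem_filter.mp he
        have hf' := Finset.mem_filter.mp hf
        exact har e he'.1 f hf'.1 (he'.2.1.trans hf'.2.1.symm) h
    calc d ≤ (F.filter fun e => a e = x).card := ha x (hRsub hx)
      _ ≤ _ := Finset.card_le_card h1
      _ ≤ _ := Finset.card_union_le _ _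
      _ ≤ _ := by omega
  have hsum : R.card * d ≤ (F.filter fun e => b e ∈ B).card + R.card * M₀.card := by
    have h1 : R.card * d ≤ ∑ x ∈ R, ((F.filter fun e => a e = x ∧ b e ∈ B).card + M₀.card) := by
      rw [← smul_eq_mul]
      exact Finset.card_nsmul_le_sum R _ d hcount
    have h2 : ∑ x ∈ R, (F.filter fun e => a e = x ∧ b e ∈ B).card ≤
        (F.filter fun e => b e ∈ B).card := by
      rw [← Finset.card_biUnion]
      · refine Finset.card_le_card ?_
        intro e he
        rw [Finset.mem_biUnion] at he
        obtain ⟨x, -, hx⟩ := he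
        rw [Finset.mem_filter] at hx ⊢
        exact ⟨hx.1, hx.2.2⟩
      · intro x _ y _ hxy
        rw [Function.onFun, Finset.disjoint_left]
        intro e he he'
        rw [Finset.mem_filter] at he he'
        exact hxy (he.2.1.symm.trans he'.2.1)
    rw [Finset.sum_add_distrib, Finset.sum_const, smul_eq_mul] at h1
    omega
  have hsumB : (F.filter fun e => b e ∈ B).card ≤ B.card * d := by
    have h1 : (F.filter fun e => b e ∈ B) = B.biUnion fun y => F.filter fun e => b e = y := by
      ext e
      simp only [Finset.mem_filter, Finset.mem_biUnion]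
      constructor
      · rintro ⟨h1, h2⟩
        exact ⟨b e, h2, h1, rfl⟩
      · rintro ⟨y, h1, h2, rfl⟩
        exact ⟨h2, h1⟩
    rw [h1]
    refine le_trans Finset.card_biUnion_le ?_
    rw [← smul_eq_mul]
    exact Finset.sum_le_card_nsmul B _ d fun y _ => hb y
  have hRcard : R.card ≤ M₀.card + 1 := by
    refine le_trans (Finset.card_le_card hRsub) ?_
    refine le_trans (Finset.card_insert_le _ _) ?_
    have := Finset.card_image_le (s := M₀) (f := a)
    omega
  have hfin : R.card * d ≤ B.card * d + R.card * M₀.card := le_trans hsum (by omega)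
  rw [← hBcard] at hfin hRcard
  have h8 : d ≤ (B.card + 1) * M₀.card := by nlinarith
  have h9 : (B.card + 1) * M₀.card ≤ (M₀.card + 1) * M₀.card := Nat.mul_le_mul_right _ hRcard
  have h10 : (M₀.card + 1) * M₀.card = M₀.card * (M₀.card + 1) := Nat.mul_comm _ _
  omega

end Pool.Agent.DisjTrans15
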