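import Pool.Agent.DisjTrans15.Exchange

/-!
# Many disjoint transversals, for every number of rows
-/

set_option autoImplicit false

namespace Pool.Agent.DisjTrans15

open Finset

variable {m n k : ℕ}

/-- The symbol of a cell. -/
def sy (A : Fin m → Fin n → Fin k) (c : Fin m × Fin n) : Fin k := A c.1 c.2

variable {A : Fin m → Fin n → Fin k} {F M M₀ : Finset (Fin m × Fin n)} {d : ℕ}

theorem IsRb.symm {E α β ρ : Type*} [DecidableEq E] [DecidableEq α] [DecidableEq β]
    [DecidableEq ρ] {a : E → α} {b : E → β} {r : E → ρ} {F M : Finset E} (h : IsRb a b r F M) :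
    IsRb b a r F M := ⟨h.sub, h.ib, h.ia, h.ir⟩

theorem IsRb.card_image {E α β ρ : Type*} [DecidableEq E] [DecidableEq α] [DecidableEq β]
    [DecidableEq ρ] {a : E → α} {b : E → β} {r : E → ρ} {F M : Finset E} (h : IsRb a b r F M) :
    (M.image a).card = M.card := by
  rw [Finset.card_image_of_injOn]
  intro e he f hf hef
  exact h.ia e he f hf hef

/-- Rainbow matchings with any prescribed set of tight symbols. -/
theorem exists_tight (hA : ∀ i, ∀ j j', A i j = A i j' → j = j')
    (hcol : ∀ j, (F.filter fun c => c.2 = j).card = d)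
    (hd : n * (n - 1) < d) (T : Finset (Fin k))
    (hT : ∀ s ∈ T, (F.filter fun c => sy A c = s).card = d) (hTn : T.card ≤ n) :
    ∃ M, IsRb (sy A) Prod.snd Prod.fst F M ∧ M.image (sy A) = T := by
  classical
  induction T using Finset.induction_on with
  | empty =>
    refine ⟨∅, ⟨?_, ?_, ?_, ?_⟩, ?_⟩ <;> simp
  | @insert s T hs ih =>
    rw [Finset.card_insert_of_notMem hs] at hTn
    obtain ⟨M₀, h1, h2⟩ := ih (fun t ht => hT t (Finset.mem_insert_of_mem ht)) (by omega)
    have hM : M₀.card = T.card := by rw [← h1.card_image, h2]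
    have hlt : M₀.card * (M₀.card + 1) < d := by
      refine lt_of_le_of_lt ?_ hd
      rw [hM, Nat.mul_comm n]
      exact Nat.mul_le_mul (by omega) (by omega)
    obtain ⟨M, h3, h4, -⟩ := exists_extend (x₀ := s) (d := d) h1 (by
        intro c _ c' _ h h'
        have h5 : A c.1 c.2 = A c.1 c'.2 := by
          have h6 : A c.1 c.2 = A c'.1 c'.2 := h
          rw [← h'] at h6
          exact h6
        exact Prod.ext h' (hA _ _ _ h5)) (by rw [h2]; exact hs) (by
        intro x hx
        rw [h2] at hx
        exact (hT x hx).ge) (fun j => (hcol j).le) hlt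
    exact ⟨M, h3, by rw [h4, h2]⟩

/-- Extension of a rainbow matching to all columns. -/
theorem exists_full
    (hcol : ∀ j, (F.filter fun c => c.2 = j).card = d)
    (hsym : ∀ s, (F.filter fun c => sy A c = s).card ≤ d)
    (hd : n * (n - 1) < d) (T : Finset (Fin k)) (t : ℕ) :
    ∀ M, IsRb Prod.snd (sy A) Prod.fst F M → T ⊆ M.image (sy A) → M.card + t = n →
      ∃ M', IsRb Prod.snd (sy A) Prod.fst F M' ∧ T ⊆ M'.image (sy A) ∧ M'.card = n := by
  classical
  induction t with
  | zero =>
    intro M h1 h2 h3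
    exact ⟨M, h1, h2, by omega⟩
  | succ t ih =>
    intro M h1 h2 h3
    have hex : ∃ j, j ∉ M.image Prod.snd := by
      by_contra hcon
      push Not at hcon
      have h4 : M.image Prod.snd = (Finset.univ : Finset (Fin n)) :=
        Finset.eq_univ_iff_forall.mpr hcon
      have h5 := h1.card_image
      rw [h4, Finset.card_univ, Fintype.card_fin] at h5
      omega
    obtain ⟨j, hj⟩ := hex
    have hlt : M.card * (M.card + 1) < d := by
      refine lt_of_le_of_lt ?_ hd
      rw [Nat.mul_comm n]
      exact Nat.mul_le_mul (by omega) (by omega)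
    obtain ⟨M', h4, h5, h6⟩ := exists_extend (x₀ := j) (d := d) h1 (by
        intro c _ c' _ h h'
        exact Prod.ext h' h) hj (fun x _ => (hcol x).ge) hsym hlt
    refine ih M' h4 (h2.trans h6) ?_
    have h7 := h4.card_image
    rw [h5, Finset.card_insert_of_notMem hj, h1.card_image] at h7
    omega

/-- The greedy step: if every column has exactly `d > n (n - 1)` free cells and every symbol has at
most `d` free cells, there is a transversal of free cells that contains all symbols with exactly
`d` free cells. -/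
theorem exists_step (hA : ∀ i, ∀ j j', A i j = A i j' → j = j')
    (hcol : ∀ j, (F.filter fun c => c.2 = j).card = d)
    (hsym : ∀ s, (F.filter fun c => sy A c = s).card ≤ d)
    (hd : n * (n - 1) < d) :
    ∃ M, IsRb Prod.snd (sy A) Prod.fst F M ∧ M.card = n ∧
      ∀ s, (F.filter fun c => sy A c = s).card = d → s ∈ M.image (sy A) := by
  classical
  set T : Finset (Fin k) := Finset.univ.filter fun s => (F.filter fun c => sy A c = s).card = d
    with hT
  have hTd : ∀ s ∈ T, (F.filter fun c => sy A c = s).card = d := fun s hs =>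
    (Finset.mem_filter.mp hs).2
  have hF : F.card = n * d := by
    rw [Finset.card_eq_sum_card_fiberwise (f := Prod.snd) (t := Finset.univ)
      (fun _ _ => Finset.mem_univ _)]
    rw [Finset.sum_congr rfl fun j _ => hcol j, Finset.sum_const, Finset.card_univ,
      Fintype.card_fin, smul_eq_mul]
  have hTn : T.card ≤ n := by
    have h1 : T.card * d ≤ F.card := by
      rw [Finset.card_eq_sum_card_fiberwise (f := sy A) (t := Finset.univ)
        (fun _ _ => Finset.mem_univ _)]
      calc T.card * d = ∑ s ∈ T, (F.filter fun c => sy A c = s).card := by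
            rw [Finset.sum_congr rfl hTd, Finset.sum_const, smul_eq_mul]
        _ ≤ _ := Finset.sum_le_sum_of_subset (Finset.subset_univ T)
    rw [hF] at h1
    exact Nat.le_of_mul_le_mul_right h1 (by omega)
  obtain ⟨M₀, h1, h2⟩ := exists_tight hA hcol hd T hTd hTn
  have h3 : M₀.card = T.card := by rw [← h1.card_image, h2]
  obtain ⟨M, h4, h5, h6⟩ := exists_full hcol hsym hd T (n - M₀.card) M₀ h1.symm (by rw [h2])
    (by omega)
  exact ⟨M, h4, h6, fun s hs => h5 (Finset.mem_filter.mpr ⟨Finset.mem_univ _, hs⟩)⟩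

/-- The iteration: if the greedy step is possible as long as `d > d₀`, then there are `t` disjoint
transversals for all `t ≤ m - d₀`. -/
theorem exists_family_of_step (hn : 1 ≤ n) (hA : ∀ i, ∀ j j', A i j = A i j' → j = j') (d₀ : ℕ)
    (hstep : ∀ (F : Finset (Fin m × Fin n)) (d : ℕ), d₀ < d →
      (∀ j, (F.filter fun c => c.2 = j).card = d) →
      (∀ s, (F.filter fun c => sy A c = s).card ≤ d) →
      ∃ M, IsRb Prod.snd (sy A) Prod.fst F M ∧ M.card = n ∧
        ∀ s, (F.filter fun c => sy A c = s).card = d → s ∈ M.image (sy A)) (t : ℕ)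
    (ht : t + d₀ ≤ m) :
    ∃ 𝒞 : Finset (Finset (Fin m × Fin n)), 𝒞.card = t ∧
      (∀ C ∈ 𝒞, IsRb Prod.snd (sy A) Prod.fst Finset.univ C ∧ C.card = n) ∧
      (∀ C ∈ 𝒞, ∀ C' ∈ 𝒞, C ≠ C' → Disjoint C C') ∧
      (∀ j, ((𝒞.biUnion id)ᶜ.filter fun c => c.2 = j).card = m - t) ∧
      (∀ s, ((𝒞.biUnion id)ᶜ.filter fun c => sy A c = s).card ≤ m - t) := by
  classical
  induction t with
  | zero =>
    refine ⟨∅, rfl, by simp, by simp, ?_, ?_⟩
    · intro j
      have h1 : ((∅ : Finset (Finset (Fin m × Fin n))).biUnion id)ᶜ.filter (fun c => c.2 = j) =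
          Finset.univ.image (fun i : Fin m => (i, j)) := by
        ext ⟨i, j'⟩
        simp [eq_comm]
      rw [h1, Finset.card_image_of_injective, Finset.card_univ, Fintype.card_fin, Nat.sub_zero]
      intro i i' h
      exact congrArg Prod.fst h
    · intro s
      rw [Nat.sub_zero]
      calc _ ≤ (Finset.univ : Finset (Fin m)).card := by
            refine Finset.card_le_card_of_injOn Prod.fst (fun _ _ => Finset.mem_univ _) ?_
            intro c hc c' hc' h
            have h1 := (Finset.mem_filter.mp hc).2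
            have h2 := (Finset.mem_filter.mp hc').2
            have h3 : A c.1 c.2 = A c'.1 c'.2 := h1.trans h2.symm
            rw [← h] at h3
            exact Prod.ext h (hA _ _ _ h3)
        _ = m := by rw [Finset.card_univ, Fintype.card_fin]
  | succ t ih =>
    obtain ⟨𝒞, h1, h2, h3, h4, h5⟩ := ih (by omega)
    obtain ⟨C, h6, h7, h8⟩ := hstep _ (m - t) (by omega) h4 h5
    have hdis : ∀ C' ∈ 𝒞, Disjoint C C' := by
      intro C' hC'
      rw [Finset.disjoint_left]
      intro c hc hc'
      have h9 := h6.sub hc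
      rw [Finset.mem_compl] at h9
      exact h9 (Finset.mem_biUnion.mpr ⟨C', hC', hc'⟩)
    have hne : C.Nonempty := Finset.card_pos.mp (by omega)
    have hCmem : C ∉ 𝒞 := by
      intro h
      have := hdis C h
      rw [Finset.disjoint_self_iff_empty] at this
      exact hne.ne_empty this
    have hset : ((insert C 𝒞).biUnion id)ᶜ = (𝒞.biUnion id)ᶜ \ C := by
      rw [Finset.biUnion_insert]
      ext c
      simp only [Finset.mem_compl, Finset.mem_union, Finset.mem_sdiff, id]
      tauto
    refine ⟨insert C 𝒞, ?_, ?_, ?_, ?_, ?_⟩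
    · rw [Finset.card_insert_of_notMem hCmem, h1]
    · intro C' hC'
      rw [Finset.mem_insert] at hC'
      rcases hC' with rfl | hC'
      · exact ⟨⟨Finset.subset_univ _, h6.ia, h6.ib, h6.ir⟩, h7⟩
      · exact h2 C' hC'
    · intro C' hC' C'' hC'' hne'
      rw [Finset.mem_insert] at hC' hC''
      rcases hC' with rfl | hC' <;> rcases hC'' with rfl | hC''
      · exact absurd rfl hne'
      · exact hdis C'' hC''
      · exact (hdis C' hC').symm
      · exact h3 C' hC' C'' hC'' hne'
    · intro j
      rw [hset]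
      have h9 : j ∈ C.image Prod.snd := by
        have h10 : C.image Prod.snd = (Finset.univ : Finset (Fin n)) := by
          rw [← Finset.card_eq_iff_eq_univ, h6.card_image, h7, Fintype.card_fin]
        rw [h10]
        exact Finset.mem_univ j
      rw [Finset.mem_image] at h9
      obtain ⟨c, hc, hcj⟩ := h9
      have h10 : ((𝒞.biUnion id)ᶜ \ C).filter (fun c => c.2 = j) =
          ((𝒞.biUnion id)ᶜ.filter fun c => c.2 = j).erase c := by
        ext c'
        simp only [Finset.mem_filter, Finset.mem_sdiff, Finset.mem_erase]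
        constructor
        · rintro ⟨⟨h11, h12⟩, h13⟩
          exact ⟨fun h => h12 (h ▸ hc), h11, h13⟩
        · rintro ⟨h11, h12, h13⟩
          exact ⟨⟨h12, fun h => h11 (h6.ia c' h c hc (h13.trans hcj.symm))⟩, h13⟩
      rw [h10, Finset.card_erase_of_mem (Finset.mem_filter.mpr ⟨h6.sub hc, hcj⟩), h4 j]
      omega
    · intro s
      rw [hset]
      rcases Nat.lt_or_ge (((𝒞.biUnion id)ᶜ.filter fun c => sy A c = s).card) (m - t) with h9 | h9
      · have h10 : (((𝒞.biUnion id)ᶜ \ C).filter (fun c => sy A c = s)).card ≤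
            ((𝒞.biUnion id)ᶜ.filter fun c => sy A c = s).card := by
          refine Finset.card_le_card ?_
          intro c' hc'
          rw [Finset.mem_filter, Finset.mem_sdiff] at hc'
          exact Finset.mem_filter.mpr ⟨hc'.1.1, hc'.2⟩
        omega
      · have h10 := h8 s (le_antisymm (h5 s) h9)
        rw [Finset.mem_image] at h10
        obtain ⟨c, hc, hcs⟩ := h10
        have h11 : (((𝒞.biUnion id)ᶜ \ C).filter (fun c => sy A c = s)).card ≤
            (((𝒞.biUnion id)ᶜ.filter fun c => sy A c = s).erase c).card := by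
          refine Finset.card_le_card ?_
          intro c' hc'
          rw [Finset.mem_filter, Finset.mem_sdiff] at hc'
          rw [Finset.mem_erase, Finset.mem_filter]
          exact ⟨fun h => hc'.1.2 (h ▸ hc), hc'.1.1, hc'.2⟩
        rw [Finset.card_erase_of_mem (Finset.mem_filter.mpr ⟨h6.sub hc, hcs⟩)] at h11
        have h12 := h5 s
        omega

/-- The family of `t` disjoint transversals. -/
theorem exists_family (hn : 1 ≤ n) (hA : ∀ i, ∀ j j', A i j = A i j' → j = j') (t : ℕ)
    (ht : t + n * (n - 1) ≤ m) :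
    ∃ 𝒞 : Finset (Finset (Fin m × Fin n)), 𝒞.card = t ∧
      (∀ C ∈ 𝒞, IsRb Prod.snd (sy A) Prod.fst Finset.univ C ∧ C.card = n) ∧
      (∀ C ∈ 𝒞, ∀ C' ∈ 𝒞, C ≠ C' → Disjoint C C') ∧
      (∀ j, ((𝒞.biUnion id)ᶜ.filter fun c => c.2 = j).card = m - t) ∧
      (∀ s, ((𝒞.biUnion id)ᶜ.filter fun c => sy A c = s).card ≤ m - t) :=
  exists_family_of_step hn hA (n * (n - 1)) (fun _ _ hd h1 h2 => exists_step hA h1 h2 hd) t ht

end Pool.Agent.DisjTrans15
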